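import Pool.Agent.R24.HamSeq

/-!
# Hamiltonian paths of sets as lists; Hamiltonian cycles from closed lists
-/

set_option autoImplicit false

namespace Pool.Agent.R24

open SimpleGraph

/-- a list running exactly once through every element of `S` along the relation `R`, from `x` to
`y` -/
def HP {W : Type*} (R : W → W → Prop) (S : Set W) (x y : W) : Prop :=
  ∃ l : List W, l.Nodup ∧ (∀ a, a ∈ l ↔ a ∈ S) ∧ l.IsChain R ∧ l.head? = some x ∧
    l.getLast? = some y

variable {W : Type*} {R : W → W → Prop}

theorem HP.single (x : W) : HP R {x} x x :=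
  ⟨[x], by simp, by simp, by simp, rfl, rfl⟩

theorem HP.trans {S T : Set W} {x y y' z : W} (h1 : HP R S x y) (h2 : HP R T y' z)
    (hd : Disjoint S T) (hR : R y y') : HP R (S ∪ T) x z := by
  obtain ⟨l1, n1, m1, c1, a1, b1⟩ := h1
  obtain ⟨l2, n2, m2, c2, a2, b2⟩ := h2
  refine ⟨l1 ++ l2, ?_, ?_, ?_, ?_, ?_⟩
  · rw [List.nodup_append]
    refine ⟨n1, n2, ?_⟩
    intro a ha b hb hab
    subst hab
    exact Set.disjoint_left.mp hd ((m1 a).1 ha) ((m2 a).1 hb)
  · intro a
    rw [List.mem_append, m1, m2, Set.mem_union]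
  · rw [List.isChain_append]
    refine ⟨c1, c2, ?_⟩
    intro u hu v hv
    rw [b1] at hu
    rw [a2] at hv
    simp only [Option.mem_def, Option.some.injEq] at hu hv
    rw [← hu, ← hv]
    exact hR
  · rw [List.head?_append, a1]; rfl
  · rw [List.getLast?_append, b2]; rfl

theorem HP.symm {S : Set W} {x y : W} (hsymm : ∀ a b, R a b → R b a) (h : HP R S x y) :
    HP R S y x := by
  obtain ⟨l, n, m, c, a, b⟩ := h
  refine ⟨l.reverse, List.nodup_reverse.mpr n, fun u => by rw [List.mem_reverse, m], ?_, ?_, ?_⟩
  · rw [List.isChain_reverse]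
    exact c.imp fun a b h => hsymm _ _ h
  · rw [List.head?_reverse, b]
  · rw [List.getLast?_reverse, a]

theorem HP.image {W' : Type*} {R' : W' → W' → Prop} {S : Set W} {x y : W} (f : W → W')
    (hf : Function.Injective f) (hR : ∀ a b, R a b → R' (f a) (f b)) (h : HP R S x y) :
    HP R' (f '' S) (f x) (f y) := by
  obtain ⟨l, n, m, c, a, b⟩ := h
  refine ⟨l.map f, (List.nodup_map_iff hf).mpr n, ?_, ?_, ?_, ?_⟩
  · intro u
    rw [List.mem_map, Set.mem_image]
    constructor
    · rintro ⟨v, hv, h⟩; exact ⟨v, (m v).1 hv, h⟩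
    · rintro ⟨v, hv, h⟩; exact ⟨v, (m v).2 hv, h⟩
  · rw [List.isChain_map]
    exact c.imp fun a b h => hR _ _ h
  · rw [List.head?_map, a]; rfl
  · rw [List.getLast?_map, b]; rfl

theorem HP.congr {S T : Set W} {x y : W} (h : HP R S x y) (hST : S = T) : HP R T x y := hST ▸ h

/-- A closed list through all vertices gives a Hamiltonian cycle. -/
theorem ham_of_list {V : Type*} [DecidableEq V] (G : SimpleGraph V) (l : List V)
    (hn : l.Nodup) (hm : ∀ a, a ∈ l) (hc : l.IsChain G.Adj) (x y : V) (hx : l.head? = some x)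
    (hy : l.getLast? = some y) (hyx : G.Adj y x) (h3 : 3 ≤ l.length) :
    ∃ (u : V) (q : G.Walk u u), q.IsHamiltonianCycle := by
  set N := l.length with hN
  have hpos : 0 < N := by omega
  let f : ℕ → V := fun i => l[i % N]'(Nat.mod_lt _ hpos)
  have hlt : ∀ i, (h : i < N) → f i = l[i] := by
    intro i h
    simp only [f, Nat.mod_eq_of_lt h]
  have hadj : ∀ i, G.Adj (f i) (f (i + 1)) := by
    intro i
    have key : ∀ j, (hj : j < N) → G.Adj (l[j]'hj) (l[(j + 1) % N]'(Nat.mod_lt _ hpos)) := by
      intro j hj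
      by_cases h : j + 1 < N
      · have := List.isChain_iff_getElem.mp hc j h
        simp only [Nat.mod_eq_of_lt h]
        exact this
      · have hjN : j = N - 1 := by omega
        have h0 : (j + 1) % N = 0 := by rw [show j + 1 = N by omega, Nat.mod_self]
        simp only [h0]
        have e1 : l[j]'(by omega) = y := by
          rw [List.getLast?_eq_getElem?] at hy
          have : l[j]? = some y := by rw [hjN]; exact hy
          rw [List.getElem?_eq_getElem (by omega)] at this
          exact Option.some.inj this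
        have e2 : l[0]'(by omega) = x := by
          rw [List.head?_eq_getElem?] at hx
          rw [List.getElem?_eq_getElem (by omega)] at hx
          exact Option.some.inj hx
        rw [e1, e2]
        exact hyx
    have := key (i % N) (Nat.mod_lt _ hpos)
    simp only [f]
    have h2 : (i % N + 1) % N = (i + 1) % N := by rw [Nat.mod_add_mod]
    simp only [h2] at this
    exact this
  obtain ⟨u, q, hq, -⟩ := ham_of_seq (G := G) (n := N) (by omega) f hadj
    (by simp only [f, Nat.mod_self, Nat.zero_mod])
    (by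
      intro i j hi hj h
      rw [hlt i hi, hlt j hj] at h
      exact (List.Nodup.getElem_inj_iff hn).mp h)
    (by
      intro v
      obtain ⟨i, hi, h⟩ := List.getElem_of_mem (hm v)
      exact ⟨i, hi, by rw [hlt i hi, h]⟩)
  exact ⟨u, q, hq⟩

end Pool.Agent.R24
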