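import Mathlib

/-!
# Hamiltonian cycles from cyclic sequences (adapted from Pool.Agent.Y996.RK.Walecki)
-/

set_option autoImplicit false

namespace Pool.Agent.R24

open SimpleGraph

variable {V : Type*} {G : SimpleGraph V}

/-- The walk along a sequence of vertices. -/
def wk (f : ℕ → V) (hf : ∀ i, G.Adj (f i) (f (i + 1))) : (m : ℕ) → G.Walk (f 0) (f m)
  | 0 => Walk.nil
  | m + 1 => (wk f hf m).concat (hf m)

theorem wk_support (f : ℕ → V) (hf : ∀ i, G.Adj (f i) (f (i + 1))) (m : ℕ) :
    (wk f hf m).support = (List.range (m + 1)).map f := by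
  induction m with
  | zero => simp [wk]
  | succ m ih =>
    rw [wk, Walk.support_concat, ih, List.range_succ (n := m + 1), List.map_append]
    simp

theorem wk_edges (f : ℕ → V) (hf : ∀ i, G.Adj (f i) (f (i + 1))) (m : ℕ) :
    (wk f hf m).edges = (List.range m).map fun i => s(f i, f (i + 1)) := by
  induction m with
  | zero => simp [wk]
  | succ m ih =>
    rw [wk, Walk.edges_concat, ih, List.range_succ, List.map_append, List.concat_eq_append]
    simp

/-- A Hamilton cycle from a cyclic sequence, with its edges. -/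
theorem ham_of_seq [DecidableEq V] {n : ℕ} (h3 : 3 ≤ n) (f : ℕ → V)
    (hf : ∀ i, G.Adj (f i) (f (i + 1))) (hper : f n = f 0)
    (hinj : ∀ i j, i < n → j < n → f i = f j → i = j) (hsurj : ∀ v, ∃ i, i < n ∧ f i = v) :
    ∃ (u : V) (q : G.Walk u u), q.IsHamiltonianCycle ∧
      ∀ e, e ∈ q.edges ↔ ∃ i, i < n ∧ e = s(f i, f (i + 1)) := by
  obtain ⟨m, rfl⟩ : ∃ m, n = m + 1 := ⟨n - 1, by omega⟩
  have hadj : G.Adj (f m) (f 0) := by
    have := hf m
    rwa [hper] at this
  have hnodup : (wk f hf m).support.Nodup := by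
    rw [wk_support]
    refine List.Nodup.map_on ?_ List.nodup_range
    intro i hi j hj hij
    rw [List.mem_range] at hi hj
    exact hinj i j hi hj hij
  refine ⟨f m, Walk.cons hadj (wk f hf m), ?_, ?_⟩
  · have hcyc : (Walk.cons hadj (wk f hf m)).IsCycle := by
      rw [Walk.cons_isCycle_iff]
      refine ⟨Walk.IsPath.mk' hnodup, ?_⟩
      intro he
      rw [wk_edges, List.mem_map] at he
      obtain ⟨i, hi, h⟩ := he
      rw [List.mem_range] at hi
      rw [Sym2.eq_iff] at h
      rcases h with ⟨h1, _⟩ | ⟨h1, h2⟩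
      · have := hinj i m (by omega) (by omega) h1
        omega
      · have := hinj i 0 (by omega) (by omega) h1
        have := hinj (i + 1) m (by omega) (by omega) h2
        omega
    rw [Walk.isHamiltonianCycle_iff_isCycle_and_support_count_tail_eq_one]
    refine ⟨hcyc, ?_⟩
    intro a
    rw [Walk.support_cons, List.tail_cons]
    apply List.count_eq_one_of_mem hnodup
    obtain ⟨i, hi, rfl⟩ := hsurj a
    rw [wk_support]
    exact List.mem_map.2 ⟨i, List.mem_range.2 hi, rfl⟩
  · intro e
    rw [Walk.edges_cons, List.mem_cons, wk_edges, List.mem_map]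
    constructor
    · rintro (he | ⟨i, hi, rfl⟩)
      · refine ⟨m, by omega, ?_⟩
        rw [he, hper]
      · rw [List.mem_range] at hi
        exact ⟨i, by omega, rfl⟩
    · rintro ⟨i, hi, rfl⟩
      by_cases him : i = m
      · left
        rw [him, hper]
      · right
        exact ⟨i, List.mem_range.2 (by omega), rfl⟩

/-- In a Hamiltonian cycle a vertex is not incident with three different edges. -/
theorem ham_no_three [DecidableEq V] {u : V} (c : G.Walk u u) (hc : c.IsHamiltonianCycle)
    {v a b d : V} (hab : a ≠ b) (had : a ≠ d) (hbd : b ≠ d) (ha : s(v, a) ∈ c.edges)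
    (hb : s(v, b) ∈ c.edges) (hd : s(v, d) ∈ c.edges) : False := by
  have h2 := hc.isCycle.ncard_neighborSet_toSubgraph_eq_two (hc.mem_support v)
  have hfin : (c.toSubgraph.neighborSet v).Finite := Set.finite_of_ncard_ne_zero (by omega)
  have hmem : ∀ x, s(v, x) ∈ c.edges → x ∈ c.toSubgraph.neighborSet v := by
    intro x hx
    rw [SimpleGraph.Subgraph.mem_neighborSet, ← SimpleGraph.Subgraph.mem_edgeSet,
      Walk.mem_edges_toSubgraph]
    exact hx
  have hsub : ({a, b, d} : Set V) ⊆ c.toSubgraph.neighborSet v := by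
    intro x hx
    rcases hx with rfl | rfl | rfl
    · exact hmem _ ha
    · exact hmem _ hb
    · exact hmem _ hd
  have h3 : ({a, b, d} : Set V).ncard = 3 := Set.ncard_eq_three.mpr ⟨a, b, d, hab, had, hbd, rfl⟩
  have := Set.ncard_le_ncard hsub hfin
  omega

/-- A Hamiltonian cycle uses two different edges at every vertex. -/
theorem ham_two [DecidableEq V] {u : V} (c : G.Walk u u) (hc : c.IsHamiltonianCycle) (v : V) :
    ∃ a b, a ≠ b ∧ s(v, a) ∈ c.edges ∧ s(v, b) ∈ c.edges := by
  have h2 := hc.isCycle.ncard_neighborSet_toSubgraph_eq_two (hc.mem_support v)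
  obtain ⟨a, b, hab, h⟩ := Set.ncard_eq_two.mp h2
  have hmem : ∀ x, x ∈ c.toSubgraph.neighborSet v → s(v, x) ∈ c.edges := by
    intro x hx
    rwa [SimpleGraph.Subgraph.mem_neighborSet, ← SimpleGraph.Subgraph.mem_edgeSet,
      Walk.mem_edges_toSubgraph] at hx
  refine ⟨a, b, hab, hmem a ?_, hmem b ?_⟩
  · rw [h]; simp
  · rw [h]; simp

end Pool.Agent.R24
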